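import Pool.Agent.Helper37.OF.St

/-!
# Project OF (MP_121524_al), module CPT: compactness of normal closures
-/

set_option autoImplicit false

namespace Pool.Agent.Helper75.OF

open Pool.Agent.Helper37.OF Monoid Pool.Agent.Helper4.FS

universe u v w x

/-- **CPT** -/
theorem hCPT : StCPT.{u, x} := by
  classical
  intro H _ Q T h hh
  have hh' : h ∈ Subgroup.closure (Group.conjugatesOfSet (Set.range T)) := hh
  induction hh' using Subgroup.closure_induction with
  | mem y hy =>
    obtain ⟨z, ⟨q, rfl⟩, hz⟩ := Group.mem_conjugatesOfSet_iff.1 hy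
    refine ⟨{q}, ?_⟩
    refine Subgroup.conjugatesOfSet_subset_normalClosure ?_
    exact Group.mem_conjugatesOfSet_iff.2 ⟨T q, ⟨q, by simp, rfl⟩, hz⟩
  | one => exact ⟨∅, Subgroup.one_mem _⟩
  | mul a b ha hb iha ihb =>
    obtain ⟨E, hE⟩ := iha ha
    obtain ⟨E', hE'⟩ := ihb hb
    refine ⟨E ∪ E', Subgroup.mul_mem _ ?_ ?_⟩
    · refine Subgroup.normalClosure_mono (Set.image_mono ?_) hE
      exact_mod_cast Finset.subset_union_left
    · refine Subgroup.normalClosure_mono (Set.image_mono ?_) hE'
      exact_mod_cast Finset.subset_union_right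
  | inv a ha iha =>
    obtain ⟨E, hE⟩ := iha ha
    exact ⟨E, Subgroup.inv_mem _ hE⟩

end Pool.Agent.Helper75.OF
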